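import Mathlib
import Pool.Agent.Lib.MP_aa9ae4_nt.Final
import Pool.Agent.Lib.MP_aa9ae4_nt.K2.Main

/-!
The asymptotic formula for the weighted moments of the Riemann zeta function with the
weight `|ζ(1 + i a t)|^(-2kβ)` for `k = 1` and `k = 2`, for every real `a > 0` and every real `β`.
-/

namespace Pool.Agent.Results.MP_aa9ae4_nt.MomentsAtOne

open Filter Topology
open Complex (I)

theorem result (k : ℕ) (hk : k = 1 ∨ k = 2) (a β : ℝ) (ha : 0 < a) : ∃ D : ℝ, 0 < D ∧
    Tendsto (fun T : ℝ => (∫ t in T..(2 * T),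
      (‖riemannZeta (1 / 2 + t * I)‖ / ‖riemannZeta (1 + a * t * I)‖ ^ β) ^ (2 * k)) /
      (T * Real.log T ^ (k ^ 2))) atTop (𝓝 D) := by
  rcases hk with rfl | rfl
  · simpa using Pool.Agent.Lib.MP_aa9ae4_nt.main a β ha
  · simpa using Pool.Agent.Lib.MP_aa9ae4_nt.K2.main a β ha

end Pool.Agent.Results.MP_aa9ae4_nt.MomentsAtOne
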