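import Mathlib
import Pool.Agent.Lib.MP_aa9ae4_nt.S1.Main

/-!
The weighted second moment of the Riemann zeta function with the weight `|ζ(σ + i a t)|^(-2β)`,
`1/2 < σ < 1`, for every real `a > 0` and every real `β`: an asymptotic formula for the integral
with the weight cut at any level `V(T) → ∞`, `V(T) ≤ T^δ`, and the lower bound that follows for the
full integral.
-/

namespace Pool.Agent.Results.MP_aa9ae4_nt.SecondMomentInStrip

open Filter Topology MeasureTheory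
open Complex (I)

theorem result (σ a β : ℝ) (hσ : 1 / 2 < σ) (hσ1 : σ < 1) (ha : 0 < a) :
    ∃ D δ : ℝ, 0 < D ∧ 0 < δ ∧
    (∀ V : ℝ → ℝ, Tendsto V atTop atTop → (∀ᶠ T : ℝ in atTop, V T ≤ T ^ δ) →
      Tendsto (fun T : ℝ => (∫ t in T..(2 * T), ‖riemannZeta (1 / 2 + t * I)‖ ^ 2 *
        min (‖riemannZeta (σ + a * t * I)‖ ^ (-(2 * β))) (V T)) / (T * Real.log T)) atTop (𝓝 D)) ∧
    (∀ c : ℝ, c < D → ∀ᶠ T : ℝ in atTop, ENNReal.ofReal (c * (T * Real.log T)) ≤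
      ∫⁻ t in Set.Icc T (2 * T), ENNReal.ofReal
        ((‖riemannZeta (1 / 2 + t * I)‖ / ‖riemannZeta (σ + a * t * I)‖ ^ β) ^ 2)) :=
  Pool.Agent.Lib.MP_aa9ae4_nt.S1.main_Fin σ a β hσ hσ1 ha

end Pool.Agent.Results.MP_aa9ae4_nt.SecondMomentInStrip
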