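import Mathlib
import Pool.Agent.Lib.MP_aa9ae4_nt.L1.Main

/-!
Lower bounds of the conjectured order of magnitude for the moments of
`ζ(1/2 + it) / |ζ(σ + i a t)|^β`, for every real `k > 0`, `1/2 < σ ≤ 1`, `a > 0` and real `β`.
-/

namespace Pool.Agent.Results.MP_aa9ae4_nt.SharpLowerBound

open Filter MeasureTheory
open Complex (I)

theorem result (k σ a β : ℝ) (hk : 0 < k) (hσ : 1 / 2 < σ) (hσ1 : σ ≤ 1) (ha : 0 < a) :
    ∃ c : ℝ, 0 < c ∧ ∀ᶠ T : ℝ in atTop,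
      ENNReal.ofReal (c * T * Real.log T ^ (k ^ 2)) ≤
        ∫⁻ t in Set.Icc T (2 * T), ENNReal.ofReal
          ((‖riemannZeta (1 / 2 + t * I)‖ / ‖riemannZeta (σ + a * t * I)‖ ^ β) ^ (2 * k)) :=
  Pool.Agent.Lib.MP_aa9ae4_nt.L1.main_L k σ a β hk hσ hσ1 ha

end Pool.Agent.Results.MP_aa9ae4_nt.SharpLowerBound
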