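import Mathlib
import Pool.Agent.Lib.MP_aa9ae4_nt.U1.Main

/-!
Upper bounds of the conjectured order of magnitude for the moments of
`ζ(1/2 + it) / |ζ(σ + i a t)|^β`, `0 < k < 1`, for every `1/2 < σ ≤ 1`, `a > 0` and real `β`: for
`σ = 1` for the full integral, for `σ < 1` with the weight cut at any level `V(T) ≤ T^δ`.
-/

namespace Pool.Agent.Results.MP_aa9ae4_nt.UpperBoundSmallK

open Filter MeasureTheory
open Complex (I)

theorem result (k σ a β : ℝ) (hk : 0 < k) (hk1 : k < 1) (hσ : 1 / 2 < σ) (hσ1 : σ ≤ 1)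
    (ha : 0 < a) :
    ∃ C : ℝ, 0 < C ∧
    (∃ δ : ℝ, 0 < δ ∧ ∀ V : ℝ → ℝ, (∀ᶠ T : ℝ in atTop, V T ≤ T ^ δ) → ∀ᶠ T : ℝ in atTop,
      ∫ t in T..(2 * T), ‖riemannZeta (1 / 2 + t * I)‖ ^ (2 * k) *
        min (‖riemannZeta (σ + a * t * I)‖ ^ (-(2 * k * β))) (V T) ≤
        C * (T * Real.log T ^ (k ^ 2))) ∧
    (σ = 1 → ∀ᶠ T : ℝ in atTop,
      ∫ t in T..(2 * T),
        (‖riemannZeta (1 / 2 + t * I)‖ / ‖riemannZeta (σ + a * t * I)‖ ^ β) ^ (2 * k) ≤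
        C * (T * Real.log T ^ (k ^ 2))) := by
  obtain ⟨C, δ, hC, hδ, h⟩ := Pool.Agent.Lib.MP_aa9ae4_nt.U1.mUT k σ a β hk hk1 hσ hσ1 ha
  obtain ⟨C', hC', h'⟩ := Pool.Agent.Lib.MP_aa9ae4_nt.U1.mU1 k a β hk hk1 ha
  have hnn : ∀ᶠ T : ℝ in atTop, 0 ≤ T * Real.log T ^ (k ^ 2) := by
    filter_upwards [eventually_ge_atTop (1 : ℝ)] with T hT
    have := Real.log_nonneg hT
    positivity
  refine ⟨max C C', lt_max_of_lt_left hC, ⟨δ, hδ, fun V hV => ?_⟩, fun hs => ?_⟩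
  · filter_upwards [h V hV, hnn] with T hT h0
    exact hT.trans (mul_le_mul_of_nonneg_right (le_max_left _ _) h0)
  · subst hs
    filter_upwards [h', hnn] with T hT h0
    refine le_trans ?_ (mul_le_mul_of_nonneg_right (le_max_right C C') h0)
    simpa using hT

end Pool.Agent.Results.MP_aa9ae4_nt.UpperBoundSmallK
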